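import Pool.Agent.K4H3.CT.D13

/-!
# Infinitely many primes in the Fibonacci recurrence with a small random error

`x 0 = a`, `x 1 = b`, `x (n + 2) = x (n + 1) + x n + c n + e n` with arbitrary starting values
`a, b`, a deterministic nonnegative forcing `c` with `∑ c n / φ ^ n < ∞` (for instance `c = 0` or `c`
bounded), and `e n` the number of heads in two tosses of a fair coin, all tosses being independent.
Almost surely `x n` is prime for infinitely many `n`; moreover, for an absolute constant `κ > 0`,
almost surely at least `κ log N` of the terms with index below `N` are prime for infinitely many `N`.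
-/

set_option autoImplicit false

namespace Pool.Agent.Results.MP_5893d7_nt.CoinTosses

open Finset Filter MeasureTheory ProbabilityTheory

/-- the sequence `x 0 = a`, `x 1 = b`, `x (n + 2) = x (n + 1) + x n + c n + e n` -/
def x (a b : ℕ) (c e : ℕ → ℕ) : ℕ → ℕ
  | 0 => a
  | 1 => b
  | (n + 2) => x a b c e (n + 1) + x a b c e n + c n + e n

/-- the number of the indices `n < N` for which `x n` is prime -/
def count (a b : ℕ) (c e : ℕ → ℕ) (N : ℕ) : ℕ :=
  ((range N).filter (fun n => (x a b c e n).Prime)).card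

/-- The random variables `e 0, e 1, …` are independent, and every `e n` is distributed as the number
of heads in two tosses of a fair coin. -/
structure Tosses {Ω : Type*} [MeasurableSpace Ω] (P : Measure Ω) (e : ℕ → Ω → ℕ) : Prop where
  meas : ∀ n, Measurable (e n)
  indep : iIndepFun e P
  zero : ∀ n, P {ω | e n ω = 0} = 1 / 4
  one : ∀ n, P {ω | e n ω = 1} = 1 / 2
  two : ∀ n, P {ω | e n ω = 2} = 1 / 4

lemma x_eq (a b : ℕ) (c e : ℕ → ℕ) (n : ℕ) : x a b c e n = Pool.Agent.K4H3.CT.xs c a b e n := by
  induction n using Nat.strong_induction_on with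
  | _ n ih =>
    match n, ih with
    | 0, _ => rfl
    | 1, _ => rfl
    | (n + 2), ih =>
      show x a b c e (n + 1) + x a b c e n + c n + e n =
        Pool.Agent.K4H3.CT.xs c a b e (n + 1) + Pool.Agent.K4H3.CT.xs c a b e n + c n + e n
      rw [ih (n + 1) (by omega), ih n (by omega)]

universe u

theorem result : ∃ κ : ℝ, 0 < κ ∧
    ∀ (Ω : Type u) [MeasurableSpace Ω] (P : Measure Ω) [IsProbabilityMeasure P] (e : ℕ → Ω → ℕ),
      Tosses P e → ∀ c : ℕ → ℕ, Summable (fun n => (c n : ℝ) / Real.goldenRatio ^ n) → ∀ a b : ℕ,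
      ∀ᵐ ω ∂P, {n | (x a b c (fun i => e i ω) n).Prime}.Infinite ∧
        ∃ᶠ N : ℕ in atTop, κ * Real.log N ≤ count a b c (fun i => e i ω) N := by
  obtain ⟨κ, hκ0, hκ⟩ := Pool.Agent.K4H3.CT.hh_tendsto
  refine ⟨κ / 2, by positivity, ?_⟩
  intro Ω _ P _ e he c hc a b
  have hl : Pool.Agent.K4H3.CT.Law P e := fun n => ⟨he.zero n, he.one n, he.two n⟩
  have e1 : ∀ e' n, x a b c e' n = Pool.Agent.K4H3.CT.xs c a b e' n := x_eq a b c
  filter_upwards [Pool.Agent.K4H3.CT.ae_many c P he.meas he.indep hl (hκ c hc) a b] with ω hω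
  have h := Pool.Agent.K4H3.CT.many_of c a b (fun i => e i ω) hκ0 hω
  simp_rw [count, e1]
  exact h

end Pool.Agent.Results.MP_5893d7_nt.CoinTosses
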