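import Pool.Agent.K4H3.PG.P9

/-!
# Gaps between the indices of the primes in the Fibonacci recurrence with a small random error

`x 0 = a`, `x 1 = b`, `x (n + 2) = x (n + 1) + x n + c n + e n` with arbitrary starting values
`a, b`, an arbitrary deterministic forcing `c`, and `e n` the number of heads in two tosses of a fair
coin, all tosses being independent. If `∑ h n / n ^ 2 < ∞` (for instance `h n = n / (log n) ^ (1 + ε)`),
then almost surely, for all large `n` for which `x n` is prime, none of the terms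
`x (n + 1), …, x (n + h n)` is prime.
-/

set_option autoImplicit false

namespace Pool.Agent.Results.MP_5893d7_nt.PrimeGaps

open Finset Filter MeasureTheory ProbabilityTheory

/-- the sequence `x 0 = a`, `x 1 = b`, `x (n + 2) = x (n + 1) + x n + c n + e n` -/
def x (a b : ℕ) (c e : ℕ → ℕ) : ℕ → ℕ
  | 0 => a
  | 1 => b
  | (n + 2) => x a b c e (n + 1) + x a b c e n + c n + e n

/-- The random variables `e 0, e 1, …` are independent, and every `e n` is distributed as the number
of heads in two tosses of a fair coin. -/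
structure Tosses {Ω : Type*} [MeasurableSpace Ω] (P : Measure Ω) (e : ℕ → Ω → ℕ) : Prop where
  meas : ∀ n, Measurable (e n)
  indep : iIndepFun e P
  zero : ∀ n, P {ω | e n ω = 0} = 1 / 4
  one : ∀ n, P {ω | e n ω = 1} = 1 / 2
  two : ∀ n, P {ω | e n ω = 2} = 1 / 4

lemma x_eq (a b : ℕ) (c e : ℕ → ℕ) (n : ℕ) : x a b c e n = Pool.Agent.K4H3.CT.xs c a b e n := by
  induction n using Nat.strong_induction_on with
  | _ n ih =>
    match n, ih with
    | 0, _ => rfl
    | 1, _ => rfl
    | (n + 2), ih =>
      show x a b c e (n + 1) + x a b c e n + c n + e n =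
        Pool.Agent.K4H3.CT.xs c a b e (n + 1) + Pool.Agent.K4H3.CT.xs c a b e n + c n + e n
      rw [ih (n + 1) (by omega), ih n (by omega)]

theorem result {Ω : Type*} [MeasurableSpace Ω] (P : Measure Ω) [IsProbabilityMeasure P]
    (e : ℕ → Ω → ℕ) (he : Tosses P e) (a b : ℕ) (c : ℕ → ℕ)
    (h : ℕ → ℕ) (hsum : Summable (fun n => (h n : ℝ) / (n : ℝ) ^ 2)) :
    ∀ᵐ ω ∂P, ∀ᶠ n in atTop, (x a b c (fun i => e i ω) n).Prime →
      ∀ d, 1 ≤ d → d ≤ h n → ¬ (x a b c (fun i => e i ω) (n + d)).Prime := by
  have hl : Pool.Agent.K4H3.CT.Law P e := fun n => ⟨he.zero n, he.one n, he.two n⟩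
  filter_upwards [Pool.Agent.K4H3.PG.gap_ae P e he.meas he.indep hl c a b h hsum] with ω hω
  simp_rw [x_eq]
  exact hω

end Pool.Agent.Results.MP_5893d7_nt.PrimeGaps
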