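import Pool.Agent.K4H3.CT.D13

/-!
# The probability that a term of the Fibonacci recurrence with a small random error is prime

`x 0 = a`, `x 1 = b`, `x (n + 2) = x (n + 1) + x n + c n + e n` with arbitrary starting values
`a, b`, a deterministic nonnegative forcing `c` with `∑ c n / φ ^ n < ∞` (for instance `c = 0` or `c`
bounded), and `e n` the number of heads in two tosses of a fair coin, all tosses being independent.
The probability that `x n` is prime is asymptotically `1 / (n log φ)`, as if `x n` were uniformly
distributed among the integers of its size; but the law of `x n` is far from uniform (the sums of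
Fibonacci numbers with random digits converge to a singular Bernoulli convolution).
-/

set_option autoImplicit false

namespace Pool.Agent.Results.MP_5893d7_nt.PrimeProbability

open Finset Filter MeasureTheory ProbabilityTheory

/-- the sequence `x 0 = a`, `x 1 = b`, `x (n + 2) = x (n + 1) + x n + c n + e n` -/
def x (a b : ℕ) (c e : ℕ → ℕ) : ℕ → ℕ
  | 0 => a
  | 1 => b
  | (n + 2) => x a b c e (n + 1) + x a b c e n + c n + e n

/-- The random variables `e 0, e 1, …` are independent, and every `e n` is distributed as the number
of heads in two tosses of a fair coin. -/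
structure Tosses {Ω : Type*} [MeasurableSpace Ω] (P : Measure Ω) (e : ℕ → Ω → ℕ) : Prop where
  meas : ∀ n, Measurable (e n)
  indep : iIndepFun e P
  zero : ∀ n, P {ω | e n ω = 0} = 1 / 4
  one : ∀ n, P {ω | e n ω = 1} = 1 / 2
  two : ∀ n, P {ω | e n ω = 2} = 1 / 4

lemma x_eq (a b : ℕ) (c e : ℕ → ℕ) (n : ℕ) : x a b c e n = Pool.Agent.K4H3.CT.xs c a b e n := by
  induction n using Nat.strong_induction_on with
  | _ n ih =>
    match n, ih with
    | 0, _ => rfl
    | 1, _ => rfl
    | (n + 2), ih =>
      show x a b c e (n + 1) + x a b c e n + c n + e n =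
        Pool.Agent.K4H3.CT.xs c a b e (n + 1) + Pool.Agent.K4H3.CT.xs c a b e n + c n + e n
      rw [ih (n + 1) (by omega), ih n (by omega)]

theorem result {Ω : Type*} [MeasurableSpace Ω] (P : Measure Ω) [IsProbabilityMeasure P]
    (e : ℕ → Ω → ℕ) (he : Tosses P e) (c : ℕ → ℕ)
    (hc : Summable (fun n => (c n : ℝ) / Real.goldenRatio ^ n)) (a b : ℕ) :
    Tendsto (fun n : ℕ => (n : ℝ) * P.real {ω | (x a b c (fun i => e i ω) n).Prime}) atTop
      (nhds (1 / Real.log Real.goldenRatio)) := by
  have hl : Pool.Agent.K4H3.CT.Law P e := fun n => ⟨he.zero n, he.one n, he.two n⟩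
  have e1 : ∀ e' n, x a b c e' n = Pool.Agent.K4H3.CT.xs c a b e' n := x_eq a b c
  simp_rw [e1]
  exact Pool.Agent.K4H3.CT.prob_tendsto c P he.meas he.indep hl hc a b

end Pool.Agent.Results.MP_5893d7_nt.PrimeProbability
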