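import Pool.Agent.K4H3.FB.B8

/-!
# Primes in the Fibonacci recurrence and in all binary recurrences, for a positive proportion of the
# starting pairs

A theorem of the type of Romanoff for the recurrences `x (n + 2) = A x (n + 1) + B x n` with coprime
positive coefficients (the Fibonacci recurrence is `A = B = 1`): for every `k`, a positive proportion
of the pairs of starting values `a, b ≤ X` gives a sequence with at least `k` primes among the terms
with index in `[2, log X]`, and at most `C X ^ 2 / k ^ 2` pairs do.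
-/

set_option autoImplicit false

namespace Pool.Agent.Results.MP_5893d7_nt.StartingPairs

open Finset

/-- the sequence `x 0 = a`, `x 1 = b`, `x (n + 2) = A x (n + 1) + B x n` -/
def x (A B a b : ℕ) : ℕ → ℕ
  | 0 => a
  | 1 => b
  | (n + 2) => A * x A B a b (n + 1) + B * x A B a b n

/-- the number of the indices `n` with `2 ≤ n ≤ log X` for which `x n` is prime -/
noncomputable def primes (A B X a b : ℕ) : ℕ :=
  ((Icc 2 ⌊Real.log X⌋₊).filter (fun n => (x A B a b n).Prime)).card

/-- the number of the pairs `(a, b)`, `1 ≤ a, b ≤ X`, whose sequence has at least `k` primes among the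
terms with index in `[2, log X]` -/
noncomputable def pairs (A B k X : ℕ) : ℕ :=
  ((Icc 1 X ×ˢ Icc 1 X).filter (fun z => k ≤ primes A B X z.1 z.2)).card

lemma x_eq (A B a b n : ℕ) : x A B a b n = Pool.Agent.K4H3.FB.sq A B a b n := by
  induction n using Nat.strong_induction_on with
  | _ n ih =>
    match n with
    | 0 => rfl
    | 1 => rfl
    | (n + 2) =>
      show A * x A B a b (n + 1) + B * x A B a b n = _
      rw [ih (n + 1) (by omega), ih n (by omega)]
      rfl

/-- Let `A`, `B` be coprime positive integers. For every `k` there is `δ > 0` such that for all large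
`X` at least `δ X ^ 2` pairs of starting values in `[1, X]` give a sequence with at least `k` primes
among the terms with index in `[2, log X]`; and there is `C` such that for all large `X` and all
`k ≥ 1` at most `C X ^ 2 / k ^ 2` pairs do. -/
theorem result (A B : ℕ) (hA : 1 ≤ A) (hB : 1 ≤ B) (hAB : A.Coprime B) :
    (∀ k : ℕ, ∃ (δ : ℝ) (X₀ : ℕ), 0 < δ ∧ ∀ X : ℕ, X₀ ≤ X → δ * (X : ℝ) ^ 2 ≤ (pairs A B k X : ℝ)) ∧
    (∃ (C : ℝ) (X₀ : ℕ), 0 < C ∧ ∀ X : ℕ, X₀ ≤ X → ∀ k : ℕ, 1 ≤ k →
      (pairs A B k X : ℝ) ≤ C * (X : ℝ) ^ 2 / (k : ℝ) ^ 2) := by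
  unfold pairs primes
  simp only [x_eq]
  exact ⟨fun k => Pool.Agent.K4H3.FB.main hA hB hAB k, Pool.Agent.K4H3.FB.upper hA hB hAB⟩

end Pool.Agent.Results.MP_5893d7_nt.StartingPairs
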